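import Pool.Agent.Helper98.WF.St

/-!
Module BA of project WF (MP_bae8ce_ag): reduction to small lifts.
-/

set_option autoImplicit false

namespace Pool.Agent.Helper79.WF.M_BA

open Pool.Agent.Helper98.WF
open Polynomial

theorem stBA (hCMP : StCMP) (hRHO : StRHO) (hGEN : StGEN) : StBA := by
  intro F E _ _ _ L d P _ S m n hL hP hSm halt htri a b c c' ha hb hc hc' hda hdb hdc hdc' hLS hmk
  obtain ⟨hd, hmkrho, hrdeg, -, -, hr0, -, h8, h9⟩ := hRHO F d P hP
  obtain ⟨⟨hL0, hL1, -⟩, hG2, -⟩ := hGEN F E L hL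
  have hsm : ∀ f : F[X], f.natDegree < d → L f ∈ S := fun f hf => hSm (hG2 d f hf)
  have hA : AdjoinRoot.mk P a ≠ 0 := h9 a ha hda
  have hB : AdjoinRoot.mk P b ≠ 0 := h9 b hb hdb
  have hC : AdjoinRoot.mk P c ≠ 0 := h9 c hc hdc
  have hC' : AdjoinRoot.mk P c' ≠ 0 := h9 c' hc' hdc'
  have hAB : AdjoinRoot.mk P (a * b) ≠ 0 := by
    rw [map_mul]; exact mul_ne_zero hA hB
  have hCC : AdjoinRoot.mk P (c * c') ≠ 0 := by
    rw [map_mul]; exact mul_ne_zero hC hC'
  have hne : AdjoinRoot.mk P (c * c') ≠ AdjoinRoot.mk P (a * b) := by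
    intro h
    apply hmk
    rw [map_sub, h, sub_self]
  set r : F[X] := rho P (AdjoinRoot.mk P (a * b) / AdjoinRoot.mk P c') with hrdef
  set x : F[X] := rho P (AdjoinRoot.mk P (a * b) / AdjoinRoot.mk P (c * c')) with hxdef
  have hmr : AdjoinRoot.mk P r = AdjoinRoot.mk P (a * b) / AdjoinRoot.mk P c' := hmkrho _
  have hmx : AdjoinRoot.mk P x = AdjoinRoot.mk P (a * b) / AdjoinRoot.mk P (c * c') := hmkrho _
  have hrne : r ≠ 0 := fun h => (div_ne_zero hAB hC') ((hr0 _).1 h)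
  have hxne : x ≠ 0 := fun h => (div_ne_zero hAB hCC) ((hr0 _).1 h)
  have hrd : r.natDegree < d := hrdeg _
  have hxd : x.natDegree < d := hrdeg _
  have hdeg2 : ∀ f g : F[X], f.natDegree < d → g.natDegree < d → (f * g).natDegree < d + d := by
    intro f g hf hg
    exact lt_of_le_of_lt natDegree_mul_le (by omega)
  have hdegsub : ∀ f g : F[X], f.natDegree < d → g.natDegree < d → (f - g).natDegree < d := by
    intro f g hf hg
    exact lt_of_le_of_lt (natDegree_sub_le f g) (max_lt hf hg)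
  have hone : (1 : F[X]).natDegree < d := by rw [natDegree_one]; exact hd
  have hmul : ∀ f g : F[X], f.natDegree < d → g.natDegree < d → L (f * g) ∈ S := by
    intro f g hf hg
    by_cases hf0 : f = 0
    · rw [hf0, zero_mul, hL0]; exact S.zero_mem
    by_cases hg0 : g = 0
    · rw [hg0, mul_zero, hL0]; exact S.zero_mem
    rw [hL.mul f g hf0 hg0]
    exact S.add_mem (hsm f hf) (hsm g hg)
  -- step 1
  obtain ⟨s₁, hs₁, hs₁d⟩ := h8 (a * b) (r * c') d hd (by
    rw [map_mul (AdjoinRoot.mk P) r c', hmr, div_mul_cancel₀ _ hC']) (hdeg2 a b hda hdb)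
    (hdeg2 r c' hrd hdc')
  have hcr : c - r ≠ 0 := by
    intro h
    apply hne
    have h1 : c = r := sub_eq_zero.1 h
    have h2 : AdjoinRoot.mk P c = AdjoinRoot.mk P (a * b) / AdjoinRoot.mk P c' := by
      rw [← hmr, ← h1]
    rw [map_mul (AdjoinRoot.mk P) c c', h2, div_mul_cancel₀ _ hC']
  have hccab : c * c' - a * b ≠ 0 := by
    intro h
    apply hmk
    rw [h, map_zero]
  have e1 : Z L m (a * b) (c * c') = Z L m r c := by
    refine hCMP F E L P S m n hL halt htri (a * b) (c * c') r c (c * s₁) (mul_ne_zero ha hb)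
      (mul_ne_zero hc hc') hccab hrne hc hcr (hmul a b hda hdb) (hmul c c' hdc hdc') hLS
      (hsm r hrd) (hsm c hdc) (hsm _ (hdegsub c r hdc hrd)) (hmul c s₁ hdc hs₁d) ?_
    have : a * b * c - r * (c * c') = c * (a * b - r * c') := by ring
    rw [this, hs₁]
    ring
  -- step 2
  obtain ⟨s₂, hs₂, hs₂d⟩ := h8 (r * 1) (x * c) d hd (by
    rw [mul_one, map_mul (AdjoinRoot.mk P) x c, hmr, hmx, map_mul (AdjoinRoot.mk P) c c']
    field_simp) (hdeg2 r 1 hrd hone)
    (hdeg2 x c hxd hdc)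
  have hx1 : 1 - x ≠ 0 := by
    intro h
    apply hne
    have h1 : x = 1 := (sub_eq_zero.1 h).symm
    rw [h1, map_one] at hmx
    rw [eq_div_iff hCC, one_mul] at hmx
    exact hmx
  have e2 : Z L m r c = Z L m x 1 := by
    refine hCMP F E L P S m n hL halt htri r c x 1 s₂ hrne hc hcr hxne one_ne_zero hx1
      (hsm r hrd) (hsm c hdc) (hsm _ (hdegsub c r hdc hrd)) (hsm x hxd) (hsm 1 hone)
      (hsm _ (hdegsub 1 x hone hxd)) (hsm s₂ hs₂d) hs₂
  rw [e1, e2]

end Pool.Agent.Helper79.WF.M_BA
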